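import Mathlib
import Pool.Agent.Run7.h754.Arens
import Pool.Agent.Run7.h754.Big2
import Pool.Agent.Run7.h754.Chain2
import Pool.Agent.Run7.h754.Low

/-!
# Minimality of the compact-open topology on groups of piecewise linear homeomorphisms

For every connected piecewise linear manifold `M` without boundary of dimension different from
three, the compact-open topology on `PL(M)` is a minimal group topology.

(The lemma `coarser_eq` shows more generally that the compact-open topology is minimal on each group of
homeomorphisms of `M` which contains the piecewise linear homeomorphisms with compact support in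
the domain of a chart of the atlas.)
-/

open Set Filter Topology
open Pool.Agent.Run7.h754

namespace Pool.Agent.Results.MP_817937_gt.Minimal

/-- The main step: a Hausdorff group topology coarser than the compact-open topology is the
compact-open topology. -/
theorem coarser_eq {n : ℕ} (hn : n ≠ 3) {M : Type*} [TopologicalSpace M] [T2Space M]
    [ConnectedSpace M] [ChartedSpace (Fin n → ℝ) M] [HasGroupoid M (plGroupoid (Fin n → ℝ))]
    (G : Subgroup (M ≃ₜ M)) (hG : ContainsPL (Fin n → ℝ) G)
    (τ : TopologicalSpace G) (hgrp : @IsTopologicalGroup G τ _) (hT2 : @T2Space G τ)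
    (hle : coTop G ≤ τ) : τ = coTop G := by
  have hloc : LocPL (n := n) G := hG.locPL
  have hX : 2 ≤ n → NoCut (Fin n → ℝ) := fun h => by
    apply noCut (E := Fin n → ℝ)
    rw [← Module.finrank_eq_rank, Module.finrank_fin_fun]
    exact_mod_cast h
  rcases (by omega : n = 0 ∨ n = 1 ∨ n = 2 ∨ 4 ≤ n) with rfl | rfl | rfl | h4
  · have := subsingleton_of_dim_zero (M := M)
    exact eq_of_subsingleton τ
  · exact minimal_one hloc hle
  · exact minimal_of_seg le_rfl hloc hle 0 (fun H _ _ hH => segSmall2 hH (hX le_rfl))
  · exact minimal_of_seg (by omega) hloc hle ⟨0, by omega⟩ (fun H _ _ hH =>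
      segSmall_big h4 ⟨0, by omega⟩ H hH (hX (by omega))
        (fun a b hab ha hb => hasChain_big h4 hH (hX (by omega)) hab ha hb))

/-- **Theorem.** Let `M` be a connected (Hausdorff) piecewise linear manifold without boundary, of
dimension `n ≠ 3`. Then the compact-open topology on the group `PL(M)` of all piecewise linear
homeomorphisms of `M` onto itself is a minimal group topology. -/
theorem result {n : ℕ} (hn : n ≠ 3) {M : Type*} [TopologicalSpace M] [T2Space M]
    [ConnectedSpace M] [ChartedSpace (Fin n → ℝ) M] [HasGroupoid M (plGroupoid (Fin n → ℝ))] :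
    IsMinimalGroupTopology (coTop (PLHomeo (Fin n → ℝ) M)) := by
  have h1 : LocallyCompactSpace M := ChartedSpace.locallyCompactSpace (Fin n → ℝ) M
  have h2 : LocallyConnectedSpace M := ChartedSpace.locallyConnectedSpace (Fin n → ℝ) M
  exact ⟨coTop_group _, coTop_t2 _, fun τ hgrp hT2 hle =>
    coarser_eq hn _ (fun f hf _ _ _ => hf) τ hgrp hT2 hle⟩

end Pool.Agent.Results.MP_817937_gt.Minimal
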